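import Pool.Agent.W837.GB.Defs

set_option autoImplicit false
open scoped NNReal Matrix ComplexOrder

namespace Pool.Agent.W346.GB
open Pool.Agent.W837.GB

theorem prim_aux {R I : Type} [CommRing R] [IsDomain R] [NormalizedGCDMonoid R] [Fintype I]
    (v : I → R) (hv : v ≠ 0) :
    ∃ (p : R) (w : I → R), p ≠ 0 ∧ (∀ s, v s = p * w s) ∧ ∀ r, (∀ s, r ∣ w s) → IsUnit r := by
  classical
  obtain ⟨i0, hi0⟩ : ∃ i, v i ≠ 0 := by
    by_contra h
    push Not at h
    exact hv (funext h)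
  obtain ⟨w, hw1, hw2⟩ := Finset.extract_gcd (s := Finset.univ) v ⟨i0, Finset.mem_univ i0⟩
  refine ⟨Finset.univ.gcd v, w, ?_, fun s => hw1 s (Finset.mem_univ s), ?_⟩
  · intro h0
    rw [Finset.gcd_eq_zero_iff] at h0
    exact hi0 (h0 i0 (Finset.mem_univ i0))
  · intro r hr
    have h1 : r ∣ Finset.univ.gcd w := Finset.dvd_gcd fun s _ => hr s
    rw [hw2] at h1
    exact isUnit_of_dvd_one h1

theorem prop_aux {R I : Type} [CommRing R] [IsDomain R] [NormalizedGCDMonoid R] [Fintype I]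
    (u u' : I → R) (hu : ∀ r, (∀ s, r ∣ u s) → IsUnit r)
    (hh : ∀ s t, u s * u' t = u t * u' s) (t : I) : u t ∣ u' t := by
  classical
  have hg : Finset.univ.gcd u = 1 := by
    have h1 : IsUnit (Finset.univ.gcd u) := hu _ fun s => Finset.gcd_dvd (Finset.mem_univ s)
    have h2 : normalize (Finset.univ.gcd u) = Finset.univ.gcd u := Finset.normalize_gcd
    rw [← h2]
    exact normalize_eq_one.2 h1
  have h1 : ∀ s, u t ∣ u s * u' t := fun s => by
    rw [hh s t]; exact dvd_mul_right _ _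
  have h2 : u t ∣ Finset.univ.gcd fun s => u s * u' t := Finset.dvd_gcd fun s _ => h1 s
  have h3 : Associated (Finset.univ.gcd (fun s => u s * u' t)) (Finset.univ.gcd u * u' t) :=
    Finset.gcd_mul_right' _ _ _
  rw [hg, one_mul] at h3
  exact h2.trans h3.dvd

theorem prim : S_PRIM := by
  intro σ I _ _ v hv
  obtain ⟨inst⟩ : Nonempty (NormalizedGCDMonoid (MvPolynomial σ ℂ)) := inferInstance
  exact prim_aux v hv

theorem prop_t : S_PROP := by
  intro σ I _ _ v w hv hw hv0 hw0 h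
  obtain ⟨inst⟩ : Nonempty (NormalizedGCDMonoid (MvPolynomial σ ℂ)) := inferInstance
  obtain ⟨i0, hi0⟩ : ∃ i, v i ≠ 0 := by
    by_contra hc
    push Not at hc
    exact hv0 (funext hc)
  have hd1 := prop_aux v w hv h
  have hd2 := prop_aux w v hw (fun s t => by rw [mul_comm, h t s, mul_comm])
  obtain ⟨c, hc⟩ := associated_of_dvd_dvd (hd1 i0) (hd2 i0)
  have hcu : IsUnit (c : MvPolynomial σ ℂ) := c.isUnit
  rw [MvPolynomial.isUnit_iff_eq_C_of_isReduced] at hcu
  obtain ⟨r, hr, hcr⟩ := hcu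
  refine ⟨r, hr.ne_zero, fun s => ?_⟩
  have h1 : v i0 * w s = v i0 * (MvPolynomial.C r * v s) := by
    rw [← hcr, h i0 s, ← hc]
    ring
  exact mul_left_cancel₀ hi0 h1

end Pool.Agent.W346.GB
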