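import Pool.Agent.W837.GB.Defs

set_option autoImplicit false
open scoped NNReal Matrix ComplexOrder

namespace Pool.Agent.W346.GB
open Pool.Agent.W837.GB

/-- the basic identity `|(H - i s) v|² = |H v|² + s² |v|²` -/
theorem norm_id {ι : Type} [Fintype ι] [DecidableEq ι] (H : Matrix ι ι ℂ) (hH : H.IsHermitian)
    (s : ℝ) (v : ι → ℂ) :
    s ^ 2 * ∑ i, ‖v i‖ ^ 2 ≤
      ∑ i, ‖((H - ((s : ℂ) * Complex.I) • (1 : Matrix ι ι ℂ)) *ᵥ v) i‖ ^ 2 := by
  have h1 : (H - ((s : ℂ) * Complex.I) • (1 : Matrix ι ι ℂ)) *ᵥ v =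
      H *ᵥ v - ((s : ℂ) * Complex.I) • v := by
    rw [Matrix.sub_mulVec, Matrix.smul_mulVec, Matrix.one_mulVec]
  have hreal : (star v ⬝ᵥ H *ᵥ v).im = 0 := by
    have h2 : star (star v ⬝ᵥ H *ᵥ v) = star v ⬝ᵥ H *ᵥ v := by
      rw [← Matrix.star_dotProduct_star, star_star, Matrix.star_mulVec, hH.eq,
        ← Matrix.dotProduct_mulVec]
    exact Complex.conj_eq_iff_im.1 h2
  have hsum : ∑ i, ‖((H - ((s : ℂ) * Complex.I) • (1 : Matrix ι ι ℂ)) *ᵥ v) i‖ ^ 2 =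
      ∑ i, ‖(H *ᵥ v) i‖ ^ 2 + s ^ 2 * ∑ i, ‖v i‖ ^ 2 - 2 * s * (star v ⬝ᵥ H *ᵥ v).im := by
    rw [dotProduct, Complex.im_sum, Finset.mul_sum, Finset.mul_sum, ← Finset.sum_add_distrib,
      ← Finset.sum_sub_distrib, h1]
    refine Finset.sum_congr rfl fun i _ => ?_
    simp only [Pi.sub_apply, Pi.smul_apply, smul_eq_mul, Pi.star_apply]
    rw [← Complex.normSq_eq_norm_sq, ← Complex.normSq_eq_norm_sq, ← Complex.normSq_eq_norm_sq]
    simp only [Complex.normSq_apply, Complex.sub_re, Complex.sub_im, Complex.mul_re,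
      Complex.mul_im, Complex.ofReal_re, Complex.ofReal_im, Complex.I_re, Complex.I_im,
      RCLike.star_def, Complex.conj_re, Complex.conj_im]
    ring
  rw [hsum, hreal]
  have : 0 ≤ ∑ i, ‖(H *ᵥ v) i‖ ^ 2 := Finset.sum_nonneg fun i _ => by positivity
  linarith

theorem det_unit {ι : Type} [Fintype ι] [DecidableEq ι] (H : Matrix ι ι ℂ) (hH : H.IsHermitian)
    (s : ℝ) (hs : s ≠ 0) : IsUnit (H - ((s : ℂ) * Complex.I) • (1 : Matrix ι ι ℂ)).det := by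
  rw [isUnit_iff_ne_zero]
  intro h0
  obtain ⟨v, hv0, hv⟩ := Matrix.exists_mulVec_eq_zero_iff.2 h0
  have h1 := norm_id H hH s v
  rw [hv] at h1
  simp only [Pi.zero_apply, norm_zero, ne_eq, OfNat.ofNat_ne_zero, not_false_eq_true, zero_pow,
    Finset.sum_const_zero] at h1
  apply hv0
  have h2 : ∑ i, ‖v i‖ ^ 2 ≤ 0 := by
    have hs2 : 0 < s ^ 2 := by positivity
    by_contra hc
    push Not at hc
    have := mul_pos hs2 hc
    linarith
  have h3 : ∑ i, ‖v i‖ ^ 2 = 0 := le_antisymm h2 (Finset.sum_nonneg fun i _ => by positivity)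
  rw [Finset.sum_eq_zero_iff_of_nonneg (fun i _ => by positivity)] at h3
  funext i
  have := h3 i (Finset.mem_univ i)
  simpa using this

/-- bound for the inverse, in vector form -/
theorem inv_bound {ι : Type} [Fintype ι] [DecidableEq ι] (H : Matrix ι ι ℂ) (hH : H.IsHermitian)
    (s : ℝ) (hs : s ≠ 0) (v : ι → ℂ) :
    ∑ i, ‖((H - ((s : ℂ) * Complex.I) • (1 : Matrix ι ι ℂ))⁻¹ *ᵥ v) i‖ ^ 2 ≤
      (∑ i, ‖v i‖ ^ 2) / s ^ 2 := by
  have hu := det_unit H hH s hs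
  have h1 := norm_id H hH s ((H - ((s : ℂ) * Complex.I) • (1 : Matrix ι ι ℂ))⁻¹ *ᵥ v)
  rw [Matrix.mulVec_mulVec, Matrix.mul_nonsing_inv _ hu, Matrix.one_mulVec] at h1
  rw [le_div_iff₀ (by positivity), mul_comm]
  exact h1

theorem hs_comm {ι ι' : Type} [Fintype ι] [Fintype ι'] (Y : Matrix ι ι' ℂ) :
    hs Y = ∑ j, ∑ i, ‖Y i j‖ ^ 2 := Finset.sum_comm

theorem hs_star {ι ι' : Type} [Fintype ι] [Fintype ι'] (Y : Matrix ι ι' ℂ) :
    hs Yᴴ = hs Y := by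
  rw [hs_comm Y]
  simp [hs, Matrix.conjTranspose_apply]

theorem hs_mul_left {ι ι' : Type} [Fintype ι] [DecidableEq ι] [Fintype ι'] (H : Matrix ι ι ℂ)
    (hH : H.IsHermitian) (s : ℝ) (hs0 : s ≠ 0) (Y : Matrix ι ι' ℂ) :
    hs ((H - ((s : ℂ) * Complex.I) • (1 : Matrix ι ι ℂ))⁻¹ * Y) ≤ hs Y / s ^ 2 := by
  rw [hs_comm, hs_comm Y, Finset.sum_div]
  refine Finset.sum_le_sum fun j _ => ?_
  exact inv_bound H hH s hs0 (fun i => Y i j)

theorem res_t : S_RES := by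
  intro ι _ _ H δ hH hδ
  have hδ0 : δ ≠ 0 := hδ.ne'
  have hu := det_unit H hH δ hδ0
  have hstar : (res H δ)ᴴ = (H - (((-δ : ℝ) : ℂ) * Complex.I) • (1 : Matrix ι ι ℂ))⁻¹ := by
    rw [res, Matrix.conjTranspose_nonsing_inv]
    congr 1
    rw [Matrix.conjTranspose_sub, hH.eq, Matrix.conjTranspose_smul, Matrix.conjTranspose_one]
    congr 2
    simp
  have hleft : ∀ (ι' : Type) [Fintype ι'] (Y : Matrix ι ι' ℂ), hs (res H δ * Y) ≤ hs Y / δ ^ 2 :=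
    fun ι' _ Y => hs_mul_left H hH δ hδ0 Y
  refine ⟨hu, ?_, hleft, ?_⟩
  · intro i j
    have h1 := inv_bound H hH δ hδ0 (Pi.single j 1)
    rw [Matrix.mulVec_single_one] at h1
    have h2 : ∑ k, ‖(Pi.single j (1 : ℂ) : ι → ℂ) k‖ ^ 2 = 1 := by
      rw [Finset.sum_eq_single j]
      · simp
      · intro k _ hk; simp [Pi.single_eq_of_ne hk]
      · intro h; exact absurd (Finset.mem_univ j) h
    rw [h2] at h1
    have h3 : ‖res H δ i j‖ ^ 2 ≤ 1 / δ ^ 2 := by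
      refine le_trans ?_ h1
      exact Finset.single_le_sum (f := fun k => ‖(res H δ).col j k‖ ^ 2)
        (fun k _ => by positivity) (Finset.mem_univ i)
    have h4 : ‖res H δ i j‖ ^ 2 ≤ (δ⁻¹) ^ 2 := by
      rw [inv_pow, ← one_div]; exact h3
    exact (sq_le_sq₀ (norm_nonneg _) (by positivity)).1 h4
  · intro ι' _ Y
    have h1 := hs_mul_left H hH (-δ) (neg_ne_zero.2 hδ0) Yᴴ
    rw [← hstar, ← Matrix.conjTranspose_mul, hs_star, hs_star, neg_sq] at h1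
    exact h1

end Pool.Agent.W346.GB
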